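import Mathlib

/-!
# The algebra of the symmetrisers, abstractly

`R m` is the endomorphism ring of the `m`-th tensor power (with the diagrammatic multiplication),
`io m` is the tensor product with `X` on the left, `S m` is the (signed) permutation of the first
two factors and `c m b` is the action of `b` on the first factor.
-/

namespace Pool.Agent.W589.KC.Abs

universe u v

variable {E : Type v} [Ring E] {R : ℕ → Type v} [∀ m, Ring (R m)]
  (io : ∀ m, R m →+* R (m + 1)) (S : ∀ m, R (m + 2)) (c : ∀ m, E →+* R (m + 1))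

/-- the relations. -/
structure Ax : Prop where
  sq : ∀ m, S m * S m = 1
  nat1 : ∀ m b, c (m + 1) b * S m = S m * io (m + 1) (c m b)
  nat2 : ∀ m b, io (m + 1) (c m b) * S m = S m * c (m + 1) b
  nat3 : ∀ m v, S m * io (m + 1) (io m v) = io (m + 1) (io m v) * S m
  braid : ∀ m, S (m + 1) * io (m + 2) (S m) * S (m + 1) =
    io (m + 2) (S m) * S (m + 1) * io (m + 2) (S m)
  exch : ∀ m b v, c m b * io m v = io m v * c m b

/-- the permutations moving the first factor. -/
def ins : ∀ m, R (m + 1)
  | 0 => 1
  | m + 1 => 1 + S m * io (m + 1) (ins m)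

/-- the inverses of the permutations moving the first factor. -/
def ins' : ∀ m, R (m + 1)
  | 0 => 1
  | m + 1 => 1 + io (m + 1) (ins' m) * S m

/-- the symmetriser. -/
def sym : ∀ m, R m
  | 0 => 1
  | m + 1 => io m (sym m) * ins io S m

/-- the derivation. -/
def D (b : E) : ∀ m, R m
  | 0 => 0
  | m + 1 => c m b + io m (D b m)

variable {io S c}

lemma sym_swap (h : Ax io S c) : ∀ m, sym io S (m + 2) * S m = sym io S (m + 2)
  | 0 => by
    simp only [sym, ins, map_one, one_mul, mul_one]
    rw [add_mul, h.sq, one_mul]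
    exact add_comm _ _
  | m + 1 => by
    have ih := sym_swap h m
    have e1 : io (m + 2) (sym io S (m + 2)) * io (m + 2) (S m) =
        io (m + 2) (sym io S (m + 2)) := by
      rw [← map_mul, ih]
    have e2 := h.nat3 (m + 1) (ins io S m)
    have e3 := h.braid m
    have e4 := h.sq (m + 1)
    have e5 : sym io S (m + 1 + 2) = io (m + 2) (sym io S (m + 2)) *
        (1 + S (m + 1) * (1 + io (m + 2) (S m) * io (m + 2) (io (m + 1) (ins io S m)))) := by
      conv_lhs => rw [sym, ins, ins]
      rw [map_add, map_one, map_mul]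
    rw [e5]
    generalize io (m + 2) (sym io S (m + 2)) = G at *
    generalize io (m + 2) (S m) = T at *
    change S (m + 1) * io (m + 2) (io (m + 1) (ins io S m)) = io (m + 2) (io (m + 1) (ins io S m)) * S (m + 1) at e2
    generalize io (m + 2) (io (m + 1) (ins io S m)) = H at *
    generalize S (m + 1) = s at *
    have a1 : G * (1 + s * (1 + T * H)) * s = G * (s + s * s + s * T * (H * s)) := by
      noncomm_ring
    have a2 : s * T * (H * s) = T * s * T * H := by
      rw [← e2, ← mul_assoc, e3]
    rw [a1, a2, e4]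
    have a3 : G * (s + 1 + T * s * T * H) = G * (s + 1) + (G * T) * (s * T * H) := by
      noncomm_ring
    rw [a3, e1]
    noncomm_ring

lemma sym_eq' (h : Ax io S c) : ∀ m, sym io S (m + 1) = ins' io S m * io m (sym io S m)
  | 0 => by simp [sym, ins, ins']
  | m + 1 => by
    have ih := sym_eq' h m
    have e1 : sym io S (m + 2) = io (m + 1) (sym io S (m + 1)) *
        (1 + S m * io (m + 1) (ins io S m)) := rfl
    have e2 : ins' io S (m + 1) = 1 + io (m + 1) (ins' io S m) * S m := rfl
    have e3 : io (m + 1) (sym io S (m + 1)) * (S m * io (m + 1) (ins io S m)) =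
        io (m + 1) (ins' io S m) * S m * io (m + 1) (sym io S (m + 1)) := by
      have : io (m + 1) (sym io S (m + 1)) =
        io (m + 1) (io m (sym io S m)) * io (m + 1) (ins io S m) := by
        rw [← map_mul]; rfl
      conv_rhs => rw [this]
      rw [ih, map_mul]
      have := h.nat3 m (sym io S m)
      rw [mul_assoc, ← mul_assoc (io (m + 1) (io m (sym io S m))), ← this]
      simp only [mul_assoc]
    rw [e1, e2, mul_add, mul_one, add_mul, one_mul, e3]

lemma sym_ins (h : Ax io S c) (b : E) :
    ∀ m, sym io S (m + 1) * (c m b * ins io S m) = sym io S (m + 1) * D io c b (m + 1)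
  | 0 => by simp [ins, D]
  | m + 1 => by
    have ih := sym_ins h b m
    have e1 : ins io S (m + 1) = 1 + S m * io (m + 1) (ins io S m) := rfl
    have e2 : D io c b (m + 2) = c (m + 1) b + io (m + 1) (D io c b (m + 1)) := rfl
    change sym io S (m + 2) * (c (m + 1) b * ins io S (m + 1)) =
      sym io S (m + 2) * D io c b (m + 2)
    rw [e1, e2, mul_add, mul_add, mul_one, mul_add, ← mul_assoc (c (m + 1) b), h.nat1,
      mul_assoc (S m), ← map_mul, ← mul_assoc (sym io S (m + 2)), sym_swap h, sym_eq' h,
      mul_assoc, mul_assoc, mul_assoc, ← map_mul, ← map_mul, ih]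

lemma D_swap (h : Ax io S c) (b : E) (m : ℕ) :
    D io c b (m + 2) * S m = S m * D io c b (m + 2) := by
  have e2 : D io c b (m + 2) = c (m + 1) b + io (m + 1) (c m b + io m (D io c b m)) := rfl
  rw [e2, map_add, add_mul, add_mul, h.nat1, h.nat2, ← h.nat3]
  noncomm_ring

lemma D_ins (h : Ax io S c) (b : E) :
    ∀ m, D io c b (m + 1) * ins io S m = ins io S m * D io c b (m + 1)
  | 0 => by simp [ins]
  | m + 1 => by
    have ih := D_ins h b m
    have e1 : ins io S (m + 1) = 1 + S m * io (m + 1) (ins io S m) := rfl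
    have e2 : D io c b (m + 2) = c (m + 1) b + io (m + 1) (D io c b (m + 1)) := rfl
    have e3 : D io c b (m + 2) * io (m + 1) (ins io S m) =
        io (m + 1) (ins io S m) * D io c b (m + 2) := by
      rw [e2, add_mul, mul_add, h.exch, ← map_mul, ← map_mul, ih]
    change D io c b (m + 2) * ins io S (m + 1) = ins io S (m + 1) * D io c b (m + 2)
    rw [e1, mul_add, add_mul, mul_one, one_mul, ← mul_assoc, D_swap h, mul_assoc, e3, mul_assoc]

lemma D_sym (h : Ax io S c) (b : E) :
    ∀ m, D io c b m * sym io S m = sym io S m * D io c b m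
  | 0 => by simp [sym]
  | m + 1 => by
    have ih := D_sym h b m
    have e1 : sym io S (m + 1) = io m (sym io S m) * ins io S m := rfl
    have e2 : D io c b (m + 1) = c m b + io m (D io c b m) := rfl
    have e3 : D io c b (m + 1) * io m (sym io S m) = io m (sym io S m) * D io c b (m + 1) := by
      rw [e2, add_mul, mul_add, h.exch, ← map_mul, ← map_mul, ih]
    rw [e1, ← mul_assoc, e3, mul_assoc, D_ins h, mul_assoc]

variable (io c) in
/-- the complete homogeneous functions of `f ⊗ 1 ⊗ ⋯`, `1 ⊗ f ⊗ ⋯`, .... -/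
def hh (f : E) : ℕ → ∀ m, R m
  | 0, _ => 1
  | _ + 1, 0 => 0
  | r + 1, m + 1 => c m f * hh f r (m + 1) + io m (hh f (r + 1) m)

lemma hh_sum (f : E) (m : ℕ) : ∀ r, hh io c f r (m + 1) =
    ∑ b ∈ Finset.range (r + 1), c m (f ^ (r - b)) * io m (hh io c f b m)
  | 0 => by simp [hh]
  | r + 1 => by
    rw [hh, hh_sum f m r, Finset.sum_range_succ _ (r + 1), Finset.mul_sum]
    congr 1
    · refine Finset.sum_congr rfl fun b hb => ?_
      have : r + 1 - b = (r - b) + 1 := by
        have := Finset.mem_range.1 hb
        omega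
      rw [this, pow_succ', map_mul, mul_assoc]
    · simp

lemma newton (h : Ax io S c) (f : E) : ∀ m r,
    ∑ b ∈ Finset.range (r + 1), hh io c f b m * D io c (f ^ (r - b + 1)) m =
      (r + 1) • hh io c f (r + 1) m
  | 0, r => by simp [D, hh]
  | m + 1, 0 => by
    have ih := newton h f m 0
    simp only [hh, D, zero_add, Finset.range_one, Finset.sum_singleton, Nat.sub_zero, pow_one,
      one_mul, one_smul, mul_one] at ih ⊢
    rw [ih]
  | m + 1, r + 1 => by
    have ih1 := newton h f m (r + 1)
    have ih2 := newton h f (m + 1) r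
    have e0 : ∀ b ∈ Finset.range (r + 1),
        hh io c f (b + 1) (m + 1) * D io c (f ^ (r + 1 - (b + 1) + 1)) (m + 1) =
        c m f * (hh io c f b (m + 1) * D io c (f ^ (r - b + 1)) (m + 1)) +
        (c m (f ^ (r - b + 1)) * io m (hh io c f (b + 1) m) +
          io m (hh io c f (b + 1) m * D io c (f ^ (r + 1 - (b + 1) + 1)) m)) := by
      intro b _
      have e : r + 1 - (b + 1) + 1 = r - b + 1 := by omega
      rw [e, hh, add_mul, mul_assoc, map_mul]
      congr 1
      rw [D, mul_add, h.exch]
    rw [Finset.sum_range_succ', Finset.sum_congr rfl e0, Finset.sum_add_distrib,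
      Finset.sum_add_distrib, ← Finset.mul_sum, ih2]
    have e1 : hh io c f 0 (m + 1) * D io c (f ^ (r + 1 - 0 + 1)) (m + 1) =
        c m (f ^ (r + 1 - 0 + 1)) * io m (hh io c f 0 m) +
          io m (hh io c f 0 m * D io c (f ^ (r + 1 - 0 + 1)) m) := by
      simp [hh, D]
    rw [e1]
    have e2 : (∑ b ∈ Finset.range (r + 1), io m (hh io c f (b + 1) m *
          D io c (f ^ (r + 1 - (b + 1) + 1)) m)) +
          io m (hh io c f 0 m * D io c (f ^ (r + 1 - 0 + 1)) m) =
        (r + 1 + 1) • io m (hh io c f (r + 1 + 1) m) := by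
      rw [← Finset.sum_range_succ' (fun b => io m (hh io c f b m *
          D io c (f ^ (r + 1 - b + 1)) m)), ← map_sum, ih1, map_nsmul]
    have e3 : (∑ b ∈ Finset.range (r + 1), c m (f ^ (r - b + 1)) * io m (hh io c f (b + 1) m)) +
          c m (f ^ (r + 1 - 0 + 1)) * io m (hh io c f 0 m) =
        c m f * hh io c f (r + 1) (m + 1) := by
      rw [hh_sum f m (r + 1), Finset.mul_sum, Finset.sum_range_succ' _ (r + 1)]
      congr 1
      · refine Finset.sum_congr rfl fun b _ => ?_
        have e : r + 1 - (b + 1) = r - b := by omega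
        rw [e, pow_succ', map_mul, mul_assoc]
      · rw [pow_succ', map_mul, mul_assoc]
    have e4 : hh io c f (r + 1 + 1) (m + 1) =
        c m f * hh io c f (r + 1) (m + 1) + io m (hh io c f (r + 1 + 1) m) := by rw [hh]
    rw [e4, smul_add, ← e2]
    have e5 : (r + 1 + 1) • (c m f * hh io c f (r + 1) (m + 1)) =
        c m f * ((r + 1) • hh io c f (r + 1) (m + 1)) +
          c m f * hh io c f (r + 1) (m + 1) := by
      rw [mul_smul_comm, succ_nsmul]
    rw [e5, ← e3]
    abel

/-- the conclusion. -/
theorem main (h : Ax io S c) (f : E) (lt : ∀ m, R (m + 1) →+ R m) (e : ℤ) (he : e * e = 1)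
    (lt1 : ∀ m u g, lt m (io m u * g) = u * lt m g)
    (lt2 : ∀ m g v, lt m (g * io m v) = lt m g * v)
    (lt3 : ∀ m k, lt m (c m (f ^ (k + 1))) = 0)
    (lt4 : ∀ m, lt (m + 1) (S m) = e • 1)
    (cancel : ∀ m (x : R m) (r : ℕ), (r + 1) • x = 0 → x = 0)
    (n : ℕ) (hn : sym io S (n + 1) = 0) : c 0 (f ^ n) = 0 := by
  have key : ∀ r m, hh io c f r (m + 2) * sym io S (m + 2) = 0 →
      hh io c f (r + 1) (m + 1) * sym io S (m + 1) = 0 := by
    intro r m h0
    have h1 : ∀ k, lt (m + 1) (c (m + 1) (f ^ (k + 1)) * ins io S (m + 1)) =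
        e • (c m (f ^ (k + 1)) * ins io S m) := by
      intro k
      have e1 : ins io S (m + 1) = 1 + S m * io (m + 1) (ins io S m) := rfl
      rw [e1, mul_add, mul_one, map_add, lt3, zero_add, ← mul_assoc, h.nat1, mul_assoc, ← map_mul,
        lt2, lt4, smul_mul_assoc, one_mul]
    have h2 : c (m + 1) f * (hh io c f r (m + 2) * sym io S (m + 2)) =
        ∑ b ∈ Finset.range (r + 1), io (m + 1) (hh io c f b (m + 1) * sym io S (m + 1)) *
          (c (m + 1) (f ^ (r - b + 1)) * ins io S (m + 1)) := by
      have e1 : sym io S (m + 2) = io (m + 1) (sym io S (m + 1)) * ins io S (m + 1) := rfl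
      rw [hh_sum f (m + 1) r, e1, Finset.sum_mul, Finset.mul_sum]
      refine Finset.sum_congr rfl fun b _ => ?_
      have a1 : c (m + 1) f * c (m + 1) (f ^ (r - b)) = c (m + 1) (f ^ (r - b + 1)) := by
        rw [pow_succ', map_mul]
      have a2 := h.exch (m + 1) (f ^ (r - b + 1)) (hh io c f b (m + 1))
      have a3 := h.exch (m + 1) (f ^ (r - b + 1)) (sym io S (m + 1))
      rw [map_mul]
      calc _ = (c (m + 1) f * c (m + 1) (f ^ (r - b))) * io (m + 1) (hh io c f b (m + 1)) *
            io (m + 1) (sym io S (m + 1)) * ins io S (m + 1) := by simp only [mul_assoc]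
        _ = _ := by
          rw [a1, a2, mul_assoc (io (m + 1) (hh io c f b (m + 1))), a3]
          simp only [mul_assoc]
    have h3 : lt (m + 1) (c (m + 1) f * (hh io c f r (m + 2) * sym io S (m + 2))) =
        e • ((r + 1) • (hh io c f (r + 1) (m + 1) * sym io S (m + 1))) := by
      rw [h2, map_sum, ← smul_mul_assoc, ← newton h f (m + 1) r, Finset.sum_mul, Finset.smul_sum]
      refine Finset.sum_congr rfl fun b _ => ?_
      rw [lt1, h1, mul_smul_comm, mul_assoc, sym_ins h, mul_assoc, D_sym h]
    rw [h0, mul_zero, map_zero] at h3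
    have h4 : (r + 1) • (hh io c f (r + 1) (m + 1) * sym io S (m + 1)) = 0 := by
      have := congrArg (fun x => e • x) h3
      simp only [smul_zero, smul_smul, he, one_smul] at this
      exact this.symm
    exact cancel _ _ _ h4
  have h1 : ∀ r m, r + m = n → hh io c f r (m + 1) * sym io S (m + 1) = 0 := by
    intro r
    induction r with
    | zero =>
      intro m hm
      rw [zero_add] at hm
      subst hm
      rw [hn, mul_zero]
    | succ r ih =>
      intro m hm
      exact key r m (ih (m + 1) (by omega))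
  have h2 := h1 n 0 (by omega)
  have h3 : ∀ r, hh io c f r 1 = c 0 (f ^ r) := by
    intro r
    induction r with
    | zero => simp [hh]
    | succ r ih =>
      rw [hh, ih, pow_succ', map_mul]
      simp [hh]
  rw [h3] at h2
  simpa [sym, ins] using h2

end Pool.Agent.W589.KC.Abs
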