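import Pool.Agent.W492.KC.Defs
import Pool.Agent.W589.KC.NilA

/-!
# Endomorphisms of finite dimensional objects with vanishing traces are nilpotent
-/

set_option linter.unusedSectionVars false

open CategoryTheory Limits MonoidalCategory

namespace Pool.Agent.W589.KC

open Pool.Agent.W492.MT (tpow tr)
open Pool.Agent.W492.KC (swp gins gsym)

universe v u

section
variable {T : Type u} [Category.{v} T] [MonoidalCategory T] [SymmetricCategory T]

lemma swp_swp (X Y : T) : swp X Y ≫ swp X Y = 𝟙 _ := by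
  simp only [swp, Category.assoc, Iso.hom_inv_id_assoc]
  rw [← comp_whiskerRight_assoc, SymmetricCategory.symmetry]
  simp

lemma swp_nat1 {X : T} (Y : T) (b : X ⟶ X) :
    b ▷ (X ⊗ Y) ≫ swp X Y = swp X Y ≫ X ◁ (b ▷ Y) := by
  have h : b ▷ X ≫ (β_ X X).hom = (β_ X X).hom ≫ X ◁ b := BraidedCategory.braiding_naturality_left b X
  have h2 : b ▷ (X ⊗ Y) = (α_ X X Y).inv ≫ (b ▷ X) ▷ Y ≫ (α_ X X Y).hom := by simp
  have h3 : X ◁ (b ▷ Y) = (α_ X X Y).inv ≫ (X ◁ b) ▷ Y ≫ (α_ X X Y).hom := by simp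
  rw [h2, h3]
  simp only [swp, Category.assoc, Iso.hom_inv_id_assoc]
  rw [← comp_whiskerRight_assoc, h, comp_whiskerRight_assoc]

lemma swp_nat2 {X : T} (Y : T) (b : X ⟶ X) :
    X ◁ (b ▷ Y) ≫ swp X Y = swp X Y ≫ b ▷ (X ⊗ Y) := by
  have h : X ◁ b ≫ (β_ X X).hom = (β_ X X).hom ≫ b ▷ X := BraidedCategory.braiding_naturality_right X b
  have h2 : b ▷ (X ⊗ Y) = (α_ X X Y).inv ≫ (b ▷ X) ▷ Y ≫ (α_ X X Y).hom := by simp
  have h3 : X ◁ (b ▷ Y) = (α_ X X Y).inv ≫ (X ◁ b) ▷ Y ≫ (α_ X X Y).hom := by simp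
  rw [h2, h3]
  simp only [swp, Category.assoc, Iso.hom_inv_id_assoc]
  rw [← comp_whiskerRight_assoc, h, comp_whiskerRight_assoc]

lemma swp_nat3 (X : T) {Y : T} (v : Y ⟶ Y) :
    swp X Y ≫ X ◁ X ◁ v = X ◁ X ◁ v ≫ swp X Y := by
  have h3 : X ◁ X ◁ v = (α_ X X Y).inv ≫ (X ⊗ X) ◁ v ≫ (α_ X X Y).hom := by simp
  rw [h3]
  simp only [swp, Category.assoc, Iso.hom_inv_id_assoc]
  rw [whisker_exchange_assoc]

lemma swp_conj1 (X Y : T) : swp X (X ⊗ Y) =
    (X ◁ (α_ X X Y).inv ≫ (α_ X (X ⊗ X) Y).inv) ≫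
      ((α_ X X X).inv ≫ (β_ X X).hom ▷ X ≫ (α_ X X X).hom) ▷ Y ≫
        (α_ X (X ⊗ X) Y).hom ≫ X ◁ (α_ X X Y).hom := by
  simp only [swp]
  monoidal

lemma swp_conj2 (X Y : T) : X ◁ swp X Y =
    (X ◁ (α_ X X Y).inv ≫ (α_ X (X ⊗ X) Y).inv) ≫
      (X ◁ (β_ X X).hom) ▷ Y ≫
        (α_ X (X ⊗ X) Y).hom ≫ X ◁ (α_ X X Y).hom := by
  simp only [swp]
  monoidal

lemma swp_braid (X Y : T) : swp X (X ⊗ Y) ≫ X ◁ swp X Y ≫ swp X (X ⊗ Y) =
    X ◁ swp X Y ≫ swp X (X ⊗ Y) ≫ X ◁ swp X Y := by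
  have h := BraidedCategory.yang_baxter X X X
  have e : ∀ a b c : (X ⊗ X ⊗ X) ⟶ (X ⊗ X ⊗ X),
      ((X ◁ (α_ X X Y).inv ≫ (α_ X (X ⊗ X) Y).inv) ≫ a ▷ Y ≫
        (α_ X (X ⊗ X) Y).hom ≫ X ◁ (α_ X X Y).hom) ≫
      ((X ◁ (α_ X X Y).inv ≫ (α_ X (X ⊗ X) Y).inv) ≫ b ▷ Y ≫
        (α_ X (X ⊗ X) Y).hom ≫ X ◁ (α_ X X Y).hom) ≫
      ((X ◁ (α_ X X Y).inv ≫ (α_ X (X ⊗ X) Y).inv) ≫ c ▷ Y ≫
        (α_ X (X ⊗ X) Y).hom ≫ X ◁ (α_ X X Y).hom) =
      (X ◁ (α_ X X Y).inv ≫ (α_ X (X ⊗ X) Y).inv) ≫ (a ≫ b ≫ c) ▷ Y ≫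
        (α_ X (X ⊗ X) Y).hom ≫ X ◁ (α_ X X Y).hom := by
    intro a b c
    simp
  rw [swp_conj1, swp_conj2, e, e]
  congr 2
  congr 1
  simp only [Category.assoc] at h ⊢
  exact h

variable [RightRigidCategory T]

/-- the partial trace over the first factor. -/
def ltr (X : T) {Y Z : T} (g : X ⊗ Y ⟶ X ⊗ Z) : Y ⟶ Z :=
  (λ_ Y).inv ≫ (η_ X Xᘁ ≫ (β_ X Xᘁ).hom) ▷ Y ≫ (α_ Xᘁ X Y).hom ≫ Xᘁ ◁ g ≫
    (α_ Xᘁ X Z).inv ≫ ε_ X Xᘁ ▷ Z ≫ (λ_ Z).hom

lemma ltr_left (X : T) {W Y Z : T} (u : W ⟶ Y) (g : X ⊗ Y ⟶ X ⊗ Z) :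
    ltr X (X ◁ u ≫ g) = u ≫ ltr X g := by
  simp only [ltr]
  rw [leftUnitor_inv_naturality_assoc, whisker_exchange_assoc]
  congr 2
  rw [MonoidalCategory.whiskerLeft_comp]
  simp

lemma ltr_right (X : T) {W Y Z : T} (u : Z ⟶ W) (g : X ⊗ Y ⟶ X ⊗ Z) :
    ltr X (g ≫ X ◁ u) = ltr X g ≫ u := by
  simp only [ltr, Category.assoc]
  rw [← leftUnitor_naturality, ← whisker_exchange_assoc]
  simp

lemma ltr_tr (X Y : T) (b : X ⟶ X) : ltr X (b ▷ Y) = (λ_ Y).inv ≫ tr b ▷ Y ≫ (λ_ Y).hom := by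
  have h : (β_ X Xᘁ).hom ≫ Xᘁ ◁ b = b ▷ Xᘁ ≫ (β_ X Xᘁ).hom :=
    (BraidedCategory.braiding_naturality_left b Xᘁ).symm
  simp only [ltr, tr]
  congr 1
  have h3 : (α_ Xᘁ X Y).hom ≫ Xᘁ ◁ (b ▷ Y) ≫ (α_ Xᘁ X Y).inv = (Xᘁ ◁ b) ▷ Y := by simp
  rw [reassoc_of% h3, ← comp_whiskerRight_assoc, ← comp_whiskerRight_assoc, Category.assoc,
    Category.assoc, reassoc_of% h]

lemma ltr_swp_aux (X : T) : ltr X (β_ X X).hom = 𝟙 X := by
  have h := BraidedCategory.hexagon_forward X Xᘁ X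
  have h1 : (β_ X (Xᘁ ⊗ X)).hom ≫ ε_ X Xᘁ ▷ X = X ◁ ε_ X Xᘁ ≫ (β_ X (𝟙_ T)).hom :=
    (BraidedCategory.braiding_naturality_right X (ε_ X Xᘁ)).symm
  have h2 := ExactPairing.evaluation_coevaluation X Xᘁ
  simp only [ltr]
  rw [comp_whiskerRight_assoc]
  have h3 : (β_ X Xᘁ).hom ▷ X ≫ (α_ Xᘁ X X).hom ≫ Xᘁ ◁ (β_ X X).hom ≫ (α_ Xᘁ X X).inv =
      (α_ X Xᘁ X).hom ≫ (β_ X (Xᘁ ⊗ X)).hom := by
    rw [← reassoc_of% h]
    simp
  rw [reassoc_of% h3, reassoc_of% h1, reassoc_of% h2]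
  simp

lemma ltr_whisker (X : T) {Y Z W : T} (g : X ⊗ Y ⟶ X ⊗ Z) :
    ltr X ((α_ X Y W).inv ≫ g ▷ W ≫ (α_ X Z W).hom) = ltr X g ▷ W := by
  simp only [ltr]
  generalize η_ X Xᘁ ≫ (β_ X Xᘁ).hom = p
  generalize ε_ X Xᘁ = q
  monoidal

lemma ltr_swp (X Y : T) : ltr X (swp X Y) = 𝟙 (X ⊗ Y) := by
  rw [swp, ltr_whisker, ltr_swp_aux]
  simp

end

section
variable {T : Type u} [Category.{v} T] [MonoidalCategory T] [SymmetricCategory T]
  [Preadditive T] [MonoidalPreadditive T]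

/-- the endomorphism ring of the tensor power with the diagrammatic multiplication. -/
abbrev RR (X : T) (m : ℕ) : Type v := (End (tpow X m))ᵐᵒᵖ

/-- the tensor product with `X` on the left. -/
def ioR (X : T) (m : ℕ) : RR X m →+* RR X (m + 1) where
  toFun a := MulOpposite.op (X ◁ a.unop : X ⊗ tpow X m ⟶ X ⊗ tpow X m)
  map_one' := by
    apply MulOpposite.unop_injective
    exact MonoidalCategory.whiskerLeft_id X (tpow X m)
  map_mul' a b := by
    apply MulOpposite.unop_injective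
    exact MonoidalCategory.whiskerLeft_comp X (a.unop : tpow X m ⟶ tpow X m) b.unop
  map_zero' := by
    apply MulOpposite.unop_injective
    exact MonoidalPreadditive.whiskerLeft_zero
  map_add' a b := by
    apply MulOpposite.unop_injective
    exact MonoidalPreadditive.whiskerLeft_add _ _

/-- the action on the first factor. -/
def cR (X : T) (m : ℕ) : (End X)ᵐᵒᵖ →+* RR X (m + 1) where
  toFun a := MulOpposite.op (a.unop ▷ tpow X m : X ⊗ tpow X m ⟶ X ⊗ tpow X m)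
  map_one' := by
    apply MulOpposite.unop_injective
    exact MonoidalCategory.id_whiskerRight X (tpow X m)
  map_mul' a b := by
    apply MulOpposite.unop_injective
    exact MonoidalCategory.comp_whiskerRight (a.unop : X ⟶ X) b.unop _
  map_zero' := by
    apply MulOpposite.unop_injective
    exact MonoidalPreadditive.zero_whiskerRight
  map_add' a b := by
    apply MulOpposite.unop_injective
    exact MonoidalPreadditive.add_whiskerRight _ _

/-- the signed permutation of the first two factors. -/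
def SR (eps : ℤ) (X : T) (m : ℕ) : RR X (m + 2) :=
  MulOpposite.op (eps • swp X (tpow X m) : X ⊗ X ⊗ tpow X m ⟶ X ⊗ X ⊗ tpow X m)

lemma wl_zsmul (X : T) {Y Z : T} (n : ℤ) (g : Y ⟶ Z) : X ◁ (n • g) = n • (X ◁ g) :=
  (tensoringLeft T).obj X |>.map_zsmul

lemma ax (eps : ℤ) (heps : eps * eps = 1) (X : T) : Abs.Ax (ioR X) (SR eps X) (cR X) where
  sq m := by
    apply MulOpposite.unop_injective
    change (eps • swp X (tpow X m)) ≫ (eps • swp X (tpow X m)) = 𝟙 _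
    rw [Preadditive.comp_zsmul, Preadditive.zsmul_comp, swp_swp, smul_smul, heps, one_smul]
  nat1 m b := by
    apply MulOpposite.unop_injective
    change (b.unop : X ⟶ X) ▷ (X ⊗ tpow X m) ≫ (eps • swp X (tpow X m)) =
      (eps • swp X (tpow X m)) ≫ X ◁ ((b.unop : X ⟶ X) ▷ tpow X m)
    rw [Preadditive.comp_zsmul, Preadditive.zsmul_comp, swp_nat1]
  nat2 m b := by
    apply MulOpposite.unop_injective
    change X ◁ ((b.unop : X ⟶ X) ▷ tpow X m) ≫ (eps • swp X (tpow X m)) =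
      (eps • swp X (tpow X m)) ≫ (b.unop : X ⟶ X) ▷ (X ⊗ tpow X m)
    rw [Preadditive.comp_zsmul, Preadditive.zsmul_comp, swp_nat2]
  nat3 m v := by
    apply MulOpposite.unop_injective
    change (eps • swp X (tpow X m)) ≫ X ◁ X ◁ (v.unop : tpow X m ⟶ tpow X m) =
      X ◁ X ◁ (v.unop : tpow X m ⟶ tpow X m) ≫ (eps • swp X (tpow X m))
    rw [Preadditive.comp_zsmul, Preadditive.zsmul_comp, swp_nat3]
  braid m := by
    apply MulOpposite.unop_injective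
    change ((eps • swp X (X ⊗ tpow X m)) ≫ X ◁ (eps • swp X (tpow X m))) ≫
        (eps • swp X (X ⊗ tpow X m)) =
      (X ◁ (eps • swp X (tpow X m)) ≫ (eps • swp X (X ⊗ tpow X m))) ≫
        X ◁ (eps • swp X (tpow X m))
    simp only [wl_zsmul, Preadditive.comp_zsmul, Preadditive.zsmul_comp, Category.assoc,
      swp_braid]
  exch m b v := by
    apply MulOpposite.unop_injective
    exact (whisker_exchange (b.unop : X ⟶ X) (v.unop : tpow X m ⟶ tpow X m)).symm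

lemma sym_eq (eps : ℤ) (X : T) :
    ∀ m, Abs.ins (ioR X) (SR eps X) m = MulOpposite.op (gins eps X m)
  | 0 => rfl
  | m + 1 => by
    apply MulOpposite.unop_injective
    rw [Abs.ins, sym_eq eps X m]
    change (𝟙 (X ⊗ X ⊗ tpow X m) : X ⊗ X ⊗ tpow X m ⟶ X ⊗ X ⊗ tpow X m) +
      (eps • swp X (tpow X m)) ≫ X ◁ gins eps X m =
      𝟙 _ + eps • (swp X (tpow X m) ≫ (X ◁ gins eps X m))
    rw [Preadditive.zsmul_comp]

lemma sym_eq2 (eps : ℤ) (X : T) :
    ∀ m, Abs.sym (ioR X) (SR eps X) m = MulOpposite.op (gsym eps X m)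
  | 0 => rfl
  | m + 1 => by
    apply MulOpposite.unop_injective
    rw [Abs.sym, sym_eq eps X m, sym_eq2 eps X m]
    rfl

variable [RightRigidCategory T]

lemma ltr_add (X : T) {Y Z : T} (g h : X ⊗ Y ⟶ X ⊗ Z) :
    ltr X (g + h) = ltr X g + ltr X h := by
  simp only [ltr, MonoidalPreadditive.whiskerLeft_add, Preadditive.add_comp,
    Preadditive.comp_add]

lemma ltr_zsmul (X : T) {Y Z : T} (n : ℤ) (g : X ⊗ Y ⟶ X ⊗ Z) :
    ltr X (n • g) = n • ltr X g := by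
  simp only [ltr, wl_zsmul, Preadditive.zsmul_comp, Preadditive.comp_zsmul]

/-- the partial trace. -/
def ltR (X : T) (m : ℕ) : RR X (m + 1) →+ RR X m :=
  AddMonoidHom.mk' (fun g => MulOpposite.op
    (ltr X (g.unop : X ⊗ tpow X m ⟶ X ⊗ tpow X m) : tpow X m ⟶ tpow X m)) (by
      intro a b
      apply MulOpposite.unop_injective
      exact ltr_add X _ _)

/-- An endomorphism `f` of an object `X` some symmetric (or exterior) power of which vanishes is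
nilpotent if the traces of all its powers vanish. -/
theorem kimura_nil (F : Type*) [Field F] [CharZero F] [Linear F T] (eps : ℤ)
    (heps : eps * eps = 1) {X : T} (f : End X)
    (htr : ∀ k : ℕ, tr (X := X) (f ^ (k + 1) : End X) = 0) (n : ℕ)
    (h : gsym eps X (n + 1) = 0) : f ^ n = 0 := by
  have key := Abs.main (ax eps heps X) (MulOpposite.op f) (ltR X) eps heps
    (by
      intro m u g
      apply MulOpposite.unop_injective
      exact ltr_left X (u.unop : tpow X m ⟶ tpow X m) g.unop)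
    (by
      intro m g u
      apply MulOpposite.unop_injective
      exact ltr_right X (u.unop : tpow X m ⟶ tpow X m) g.unop)
    (by
      intro m k
      apply MulOpposite.unop_injective
      change ltr X ((MulOpposite.op f ^ (k + 1)).unop ▷ tpow X m) = 0
      rw [ltr_tr, MulOpposite.unop_pow, MulOpposite.unop_op, htr]
      simp)
    (by
      intro m
      apply MulOpposite.unop_injective
      change ltr X (eps • swp X (tpow X m)) = eps • 𝟙 _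
      rw [ltr_zsmul, ltr_swp]
      rfl)
    (by
      intro m x r hx
      have h1 : (r + 1) • (x.unop : tpow X m ⟶ tpow X m) = 0 :=
        congrArg MulOpposite.unop hx
      apply MulOpposite.unop_injective
      change (x.unop : tpow X m ⟶ tpow X m) = 0
      rw [← Nat.cast_smul_eq_nsmul F] at h1
      have h2 : ((r + 1 : ℕ) : F) ≠ 0 := Nat.cast_ne_zero.2 (Nat.succ_ne_zero r)
      exact (smul_eq_zero.1 h1).resolve_left h2)
    n (by rw [sym_eq2, h]; rfl)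
  have h1 : (f ^ n : End X) ▷ (𝟙_ T) = 0 := by
    have := congrArg MulOpposite.unop key
    change (MulOpposite.op f ^ n).unop ▷ (𝟙_ T) = 0 at this
    rwa [MulOpposite.unop_pow, MulOpposite.unop_op] at this
  have h2 : (f ^ n : End X) = (ρ_ X).inv ≫ (f ^ n : End X) ▷ (𝟙_ T) ≫ (ρ_ X).hom := by
    simp
  rw [h2, h1]
  simp

end

end Pool.Agent.W589.KC
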